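import Pool.Agent.X153.WS.Local

/-!
# Near-extremal word-search grids: the word `aab` in the plane

Letters are natural numbers, `a = 0` and `b = 1`.  We show `C₂(aab) = 2`; the value `2` is
attained by stripes, with letter distribution `(2/3, 1/3)`, and there is a `4 × 8` grid with
concentration `7/4 = 2 (1 - 1/8)` and letter distribution `(1/2, 1/2)`, at distance `1/6 > 1/8`.
-/

set_option autoImplicit false

open Finset

namespace Pool.Agent.Results.MP_f54ac9_co.NearExtremal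

/-- The cells of the toroidal box with side lengths `n i`. -/
abbrev Box {d : ℕ} (n : Fin d → ℕ) : Type := (i : Fin d) → ZMod (n i)

/-- The directions: the nonzero vectors with all entries in `{-1, 0, 1}`. -/
def dirs (d : ℕ) : Set (Fin d → ℤ) := {v | v ≠ 0 ∧ ∀ i, v i = -1 ∨ v i = 0 ∨ v i = 1}

/-- The cell `p + k v`. -/
def step {d : ℕ} {n : Fin d → ℕ} (p : Box n) (v : Fin d → ℤ) (k : ℕ) : Box n :=
  fun i => p i + (((k : ℤ) * v i : ℤ) : ZMod (n i))

/-- The appearances of the word `w` (a list of letters) in the grid `Γ`: the pairs of a cell `p`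
and a direction `v` such that the letter at `p + k v` is the `k`-th letter of `w` for all `k`. -/
def appearances {d : ℕ} {n : Fin d → ℕ} (w : List ℕ) (Γ : Box n → ℕ) :
    Set (Box n × (Fin d → ℤ)) :=
  {x | x.2 ∈ dirs d ∧ ∀ (k : ℕ) (hk : k < w.length), Γ (step x.1 x.2 k) = w[k]}

/-- The concentration of `w` in `Γ`. -/
noncomputable def conc {d : ℕ} {n : Fin d → ℕ} (w : List ℕ) (Γ : Box n → ℕ) : ℝ :=
  ((appearances w Γ).ncard : ℝ) / ∏ i, (n i : ℝ)

/-- The supremum `C_d(w)` of the concentrations of `w` in `d`-dimensional grids. -/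
noncomputable def C (d : ℕ) (w : List ℕ) : ℝ :=
  sSup {c : ℝ | ∃ n : Fin d → ℕ, (∀ i, 0 < n i) ∧ ∃ Γ : Box n → ℕ, c = conc w Γ}

/-- The letter distribution of a grid. -/
noncomputable def distOf {d : ℕ} {n : Fin d → ℕ} (Γ : Box n → ℕ) : ℕ → ℝ :=
  fun A => ((Γ ⁻¹' {A}).ncard : ℝ) / ∏ i, (n i : ℝ)

/-- Letter distributions: functions from the letters to `[0, 1]` with finite support and sum
`1`. -/
def IsDist (h : ℕ → ℝ) : Prop :=
  (∀ A, 0 ≤ h A ∧ h A ≤ 1) ∧ (Function.support h).Finite ∧ ∑ᶠ A, h A = 1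

/-- The total variation distance. -/
noncomputable def tv (h₁ h₂ : ℕ → ℝ) : ℝ := 1 / 2 * ∑ᶠ A, |h₁ A - h₂ A|

/-! ### The upper bound -/

/-- The eight directions of the plane. -/
def D : Finset (Fin 2 → ℤ) :=
  {![1, 0], ![-1, 0], ![0, 1], ![0, -1], ![1, 1], ![-1, -1], ![1, -1], ![-1, 1]}

theorem mem_D {v : Fin 2 → ℤ} (hv : v ∈ dirs 2) : v ∈ D := by
  obtain ⟨h0, h⟩ := hv
  have hv' : v = ![v 0, v 1] := by
    ext i
    fin_cases i <;> rfl
  rcases h 0 with h1 | h1 | h1 <;> rcases h 1 with h2 | h2 | h2 <;> rw [hv', h1, h2] <;>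
    first
      | decide
      | (exfalso
         apply h0
         rw [hv', h1, h2]
         ext i
         fin_cases i <;> rfl)

theorem D_sub {v : Fin 2 → ℤ} (hv : v ∈ D) : v ∈ dirs 2 := by
  simp only [D, mem_insert, mem_singleton] at hv
  rcases hv with rfl | rfl | rfl | rfl | rfl | rfl | rfl | rfl <;>
  · refine ⟨?_, ?_⟩
    · intro h
      have h0 := congrFun h 0
      have h1 := congrFun h 1
      simp at h0 h1
    · intro i
      fin_cases i <;> simp

/-- The element of the group given by a vector. -/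
def E {d : ℕ} {n : Fin d → ℕ} (v : Fin d → ℤ) : Box n := fun i => ((v i : ℤ) : ZMod (n i))

theorem step_zero {d : ℕ} {n : Fin d → ℕ} (p : Box n) (v : Fin d → ℤ) : step p v 0 = p := by
  ext i
  simp [step]

theorem step_one {d : ℕ} {n : Fin d → ℕ} (p : Box n) (v : Fin d → ℤ) :
    step p v 1 = p + E v := by
  ext i
  simp [step, E]

theorem step_two {d : ℕ} {n : Fin d → ℕ} (p : Box n) (v : Fin d → ℤ) :
    step p v 2 = p + E v + E v := by
  ext i
  simp only [step, E, Pi.add_apply]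
  push_cast
  ring

theorem mem_app {d : ℕ} {n : Fin d → ℕ} (Γ : Box n → ℕ) (x : Box n × (Fin d → ℤ)) :
    x ∈ appearances [0, 0, 1] Γ ↔ x.2 ∈ dirs d ∧ Γ x.1 = 0 ∧ Γ (x.1 + E x.2) = 0 ∧
      Γ (x.1 + E x.2 + E x.2) = 1 := by
  constructor
  · rintro ⟨h1, h2⟩
    refine ⟨h1, ?_, ?_, ?_⟩
    · have := h2 0 (by simp)
      rwa [step_zero] at this
    · have := h2 1 (by simp)
      rwa [step_one] at this
    · have := h2 2 (by simp)
      rwa [step_two] at this
  · rintro ⟨h1, h2, h3, h4⟩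
    refine ⟨h1, ?_⟩
    intro k hk
    have hk' : k < 3 := hk
    interval_cases k
    · rw [step_zero]; exact h2
    · rw [step_one]; exact h3
    · rw [step_two]; exact h4

theorem E_add {d : ℕ} {n : Fin d → ℕ} (v w : Fin d → ℤ) : (E (v + w) : Box n) = E v + E w := by
  ext i
  simp [E]

theorem E_neg {d : ℕ} {n : Fin d → ℕ} (v : Fin d → ℤ) : (E (-v) : Box n) = -E v := by
  ext i
  simp [E]

theorem pair_sum {G : Type} [AddCommGroup G] [Fintype G] (s : G → Bool) (u : G) :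
    ∑ p, X153.WS.fwd (s p) (s (p + u)) (s (p + u + u)) +
      ∑ p, X153.WS.fwd (s p) (s (p + -u)) (s (p + -u + -u)) = X153.WS.T s u := by
  rw [← X153.WS.sum_shift (fun p => X153.WS.fwd (s p) (s (p + -u)) (s (p + -u + -u))) (u + u),
    X153.WS.T, ← Finset.sum_add_distrib]
  refine Finset.sum_congr rfl fun p _ => ?_
  have h1 : p + (u + u) = p + u + u := by abel
  have h2 : p + (u + u) + -u = p + u := by abel
  have h3 : p + (u + u) + -u + -u = p := by abel
  rw [h3, h2, h1, X153.WS.gd]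

theorem app_finite {n : Fin 2 → ℕ} (hn : ∀ i, 0 < n i) (Γ : Box n → ℕ) :
    (appearances [0, 0, 1] Γ).Finite := by
  have _ : ∀ i, NeZero (n i) := fun i => ⟨(hn i).ne'⟩
  refine ((Finset.univ : Finset (Box n)) ×ˢ D).finite_toSet.subset ?_
  intro x hx
  rw [Finset.coe_product]
  exact ⟨by simp, mem_D hx.1⟩

theorem app_le {n : Fin 2 → ℕ} (hn : ∀ i, 0 < n i) (Γ : Box n → ℕ) :
    (appearances [0, 0, 1] Γ).ncard ≤ 2 * ∏ i, n i := by
  classical
  have _ : ∀ i, NeZero (n i) := fun i => ⟨(hn i).ne'⟩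
  set s : Box n → Bool := fun p => decide (Γ p ≠ 0) with hs
  set S : (Fin 2 → ℤ) → ℕ := fun v =>
    ∑ p : Box n, X153.WS.fwd (s p) (s (p + E v)) (s (p + E v + E v)) with hS
  have h1 : (appearances [0, 0, 1] Γ).ncard ≤ ∑ v ∈ D, S v := by
    set F : Finset ((Fin 2 → ℤ) × Box n) := (D ×ˢ (Finset.univ : Finset (Box n))).filter
      (fun x => X153.WS.fwd (s x.2) (s (x.2 + E x.1)) (s (x.2 + E x.1 + E x.1)) = 1) with hF
    have h2 : (appearances [0, 0, 1] Γ).ncard ≤ (F : Set ((Fin 2 → ℤ) × Box n)).ncard := by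
      refine Set.ncard_le_ncard_of_injOn (fun x => (x.2, x.1)) ?_ ?_ F.finite_toSet
      · intro x hx
        rw [mem_app] at hx
        obtain ⟨g1, g2, g3, g4⟩ := hx
        simp only [hF, Finset.coe_filter, Finset.mem_product, Finset.mem_univ, and_true,
          Set.mem_ofPred_eq]
        refine ⟨mem_D g1, ?_⟩
        simp [hs, g2, g3, g4, X153.WS.fwd]
      · intro x _ y _ hxy
        simp only [Prod.mk.injEq] at hxy
        exact Prod.ext hxy.2 hxy.1
    rw [Set.ncard_coe_finset] at h2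
    refine h2.trans ?_
    rw [hF, Finset.card_filter, Finset.sum_product]
    refine Finset.sum_le_sum fun v _ => Finset.sum_le_sum fun p _ => ?_
    split_ifs with h
    · exact h.symm.le
    · exact Nat.zero_le _
  have h3 : ∑ v ∈ D, S v = (S ![1, 0] + S ![-1, 0]) + (S ![0, 1] + S ![0, -1]) +
      (S ![1, 1] + S ![-1, -1]) + (S ![1, -1] + S ![-1, 1]) := by
    rw [D, Finset.sum_insert (by decide), Finset.sum_insert (by decide),
      Finset.sum_insert (by decide), Finset.sum_insert (by decide), Finset.sum_insert (by decide),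
      Finset.sum_insert (by decide), Finset.sum_insert (by decide), Finset.sum_singleton]
    ring
  have h4 : ∀ v : Fin 2 → ℤ, S v + S (-v) = X153.WS.T s (E v) := by
    intro v
    simp only [hS, E_neg]
    exact pair_sum s (E v)
  have n1 : (![-1, 0] : Fin 2 → ℤ) = -![1, 0] := by decide
  have n2 : (![0, -1] : Fin 2 → ℤ) = -![0, 1] := by decide
  have n3 : (![-1, -1] : Fin 2 → ℤ) = -![1, 1] := by decide
  have n4 : (![-1, 1] : Fin 2 → ℤ) = -![1, -1] := by decide
  have a1 : (E ![1, 1] : Box n) = E ![1, 0] + E ![0, 1] := by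
    rw [← E_add]
    congr 1
    decide
  have a2 : (E ![1, -1] : Box n) = E ![1, 0] - E ![0, 1] := by
    rw [sub_eq_add_neg, ← E_neg, ← E_add]
    congr 1
    decide
  rw [h3, n1, n2, n3, n4, h4, h4, h4, h4, a1, a2] at h1
  have h5 := X153.WS.total_le s (E ![1, 0]) (E ![0, 1])
  have h6 : Fintype.card (Box n) = ∏ i, n i := by
    rw [Fintype.card_pi]
    simp [ZMod.card]
  rw [h6] at h5
  exact h1.trans h5

theorem conc_le {n : Fin 2 → ℕ} (hn : ∀ i, 0 < n i) (Γ : Box n → ℕ) :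
    conc [0, 0, 1] Γ ≤ 2 := by
  have hpos : (0 : ℝ) < ∏ i, (n i : ℝ) := by
    apply Finset.prod_pos
    intro i _
    exact_mod_cast hn i
  rw [conc, div_le_iff₀ hpos]
  have := app_le hn Γ
  exact_mod_cast this

/-! ### The two grids -/

/-- The planar grid given by a function of two coordinates. -/
def grid (a b : ℕ) (g : ZMod a → ZMod b → ℕ) : Box ![a, b] → ℕ := fun p => g (p 0) (p 1)

/-- The cell with given coordinates. -/
def mk {a b : ℕ} (x : ZMod a × ZMod b) : Box ![a, b] :=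
  (piFinTwoEquiv (fun i => ZMod (![a, b] i))).symm x

theorem mk_inj {a b : ℕ} : Function.Injective (mk : ZMod a × ZMod b → Box ![a, b]) :=
  (piFinTwoEquiv (fun i => ZMod (![a, b] i))).symm.injective

theorem mk_surj {a b : ℕ} (p : Box ![a, b]) : ∃ x : ZMod a × ZMod b, mk x = p :=
  (piFinTwoEquiv (fun i => ZMod (![a, b] i))).symm.surjective p

theorem grid_mk (a b : ℕ) (g : ZMod a → ZMod b → ℕ) (x : ZMod a × ZMod b) :
    grid a b g (mk x) = g x.1 x.2 := rfl

/-- The directions as pairs. -/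
def D8 : Finset (ℤ × ℤ) := {(1, 0), (-1, 0), (0, 1), (0, -1), (1, 1), (-1, -1), (1, -1), (-1, 1)}

/-- The condition for an appearance in terms of coordinates. -/
def ok {a b : ℕ} (g : ZMod a → ZMod b → ℕ) (x : (ZMod a × ZMod b) × (ℤ × ℤ)) : Bool :=
  g x.1.1 x.1.2 = 0 && g (x.1.1 + (x.2.1 : ZMod a)) (x.1.2 + (x.2.2 : ZMod b)) = 0 &&
    g (x.1.1 + (x.2.1 : ZMod a) + (x.2.1 : ZMod a)) (x.1.2 + (x.2.2 : ZMod b) +
      (x.2.2 : ZMod b)) = 1

theorem app_ge (a b : ℕ) [NeZero a] [NeZero b] (g : ZMod a → ZMod b → ℕ) :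
    (((Finset.univ : Finset (ZMod a × ZMod b)) ×ˢ D8).filter (fun x => ok g x = true)).card ≤
      (appearances [0, 0, 1] (grid a b g)).ncard := by
  have hn : ∀ i, 0 < ![a, b] i := by
    intro i
    fin_cases i
    · exact Nat.pos_of_ne_zero (NeZero.ne a)
    · exact Nat.pos_of_ne_zero (NeZero.ne b)
  rw [← Set.ncard_coe_finset]
  refine Set.ncard_le_ncard_of_injOn (fun x => (mk x.1, ![x.2.1, x.2.2])) ?_ ?_
    (app_finite hn _)
  · rintro ⟨⟨x, y⟩, ⟨i, j⟩⟩ hx
    simp only [Finset.coe_filter, Finset.mem_product, Finset.mem_univ, true_and,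
      Set.mem_ofPred_eq, ok, Bool.and_eq_true, decide_eq_true_eq] at hx
    obtain ⟨h1, ⟨h2, h3⟩, h4⟩ := hx
    rw [mem_app]
    have hE : mk (x, y) + (E ![i, j] : Box ![a, b]) = mk (x + (i : ZMod a), y + (j : ZMod b)) := by
      ext k
      fin_cases k <;> rfl
    have hE2 : mk (x, y) + (E ![i, j] : Box ![a, b]) + E ![i, j] =
        mk (x + (i : ZMod a) + (i : ZMod a), y + (j : ZMod b) + (j : ZMod b)) := by
      ext k
      fin_cases k <;> rfl
    refine ⟨?_, ?_, ?_, ?_⟩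
    · simp only [D8, Finset.mem_insert, Finset.mem_singleton, Prod.mk.injEq] at h1
      show ![i, j] ∈ dirs 2
      apply D_sub
      rcases h1 with h | h | h | h | h | h | h | h <;> · rw [h.1, h.2]; decide
    · exact h2
    · show grid a b g (mk (x, y) + E ![i, j]) = 0
      rw [hE]
      exact h3
    · show grid a b g (mk (x, y) + E ![i, j] + E ![i, j]) = 1
      rw [hE2]
      exact h4
  · rintro ⟨x, ⟨i, j⟩⟩ _ ⟨y, ⟨k, l⟩⟩ _ h
    simp only [Prod.mk.injEq] at h
    have h1 := mk_inj h.1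
    have h2 := congrFun h.2 0
    have h3 := congrFun h.2 1
    simp only [Matrix.cons_val_zero, Matrix.cons_val_one] at h2 h3
    rw [h1, h2, h3]

theorem preimage_ncard (a b : ℕ) [NeZero a] [NeZero b] (g : ZMod a → ZMod b → ℕ) (A : ℕ) :
    (grid a b g ⁻¹' {A}).ncard =
      ((Finset.univ : Finset (ZMod a × ZMod b)).filter (fun x => g x.1 x.2 = A)).card := by
  rw [← Set.ncard_coe_finset, ← Set.ncard_image_of_injective _ mk_inj]
  congr 1
  ext p
  constructor
  · intro hp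
    obtain ⟨x, rfl⟩ := mk_surj p
    refine ⟨x, ?_, rfl⟩
    rw [Finset.coe_filter]
    exact ⟨Finset.mem_univ _, hp⟩
  · rintro ⟨x, hx, rfl⟩
    rw [Finset.coe_filter] at hx
    exact hx.2

theorem prod_two (a b : ℕ) : ∏ i, ((![a, b] i : ℕ) : ℝ) = (a : ℝ) * b := by
  rw [Fin.prod_univ_two]
  rfl

/-- Stripes. -/
def g1 : ZMod 3 → ZMod 1 → ℕ := fun x _ => if x = 2 then 1 else 0

/-- The table of the `4 × 8` grid. -/
def tab2 : List ℕ := [1, 0, 0, 1, 1, 1, 0, 0, 0, 1, 1, 1, 0, 0, 1, 0,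
  1, 1, 0, 0, 1, 0, 0, 1, 0, 0, 1, 0, 0, 1, 1, 1]

/-- The `4 × 8` grid. -/
def g2 : ZMod 4 → ZMod 8 → ℕ := fun x y => tab2.getD (8 * x.val + y.val) 0

theorem card1 : (((Finset.univ : Finset (ZMod 3 × ZMod 1)) ×ˢ D8).filter
    (fun x => ok g1 x = true)).card = 6 := by decide +kernel

theorem card2 : (((Finset.univ : Finset (ZMod 4 × ZMod 8)) ×ˢ D8).filter
    (fun x => ok g2 x = true)).card = 56 := by decide +kernel

theorem conc1 : 2 ≤ conc [0, 0, 1] (grid 3 1 g1) := by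
  have h := app_ge 3 1 g1
  rw [card1] at h
  have h' : (6 : ℝ) ≤ ((appearances [0, 0, 1] (grid 3 1 g1)).ncard : ℝ) := by exact_mod_cast h
  rw [conc, prod_two, le_div_iff₀ (by norm_num)]
  norm_num
  linarith

theorem conc2 : 7 / 4 ≤ conc [0, 0, 1] (grid 4 8 g2) := by
  have h := app_ge 4 8 g2
  rw [card2] at h
  have h' : (56 : ℝ) ≤ ((appearances [0, 0, 1] (grid 4 8 g2)).ncard : ℝ) := by exact_mod_cast h
  rw [conc, prod_two, le_div_iff₀ (by norm_num)]
  norm_num
  linarith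

theorem dist1 : distOf (grid 3 1 g1) 0 = 2 / 3 ∧ distOf (grid 3 1 g1) 1 = 1 / 3 := by
  have h0 : ((Finset.univ : Finset (ZMod 3 × ZMod 1)).filter (fun x => g1 x.1 x.2 = 0)).card = 2 :=
    by decide +kernel
  have h1 : ((Finset.univ : Finset (ZMod 3 × ZMod 1)).filter (fun x => g1 x.1 x.2 = 1)).card = 1 :=
    by decide +kernel
  unfold distOf
  rw [preimage_ncard, preimage_ncard, h0, h1, prod_two]
  norm_num

theorem dist2 : distOf (grid 4 8 g2) 0 = 1 / 2 ∧ distOf (grid 4 8 g2) 1 = 1 / 2 := by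
  have h0 : ((Finset.univ : Finset (ZMod 4 × ZMod 8)).filter
    (fun x => g2 x.1 x.2 = 0)).card = 16 := by decide +kernel
  have h1 : ((Finset.univ : Finset (ZMod 4 × ZMod 8)).filter
    (fun x => g2 x.1 x.2 = 1)).card = 16 := by decide +kernel
  unfold distOf
  rw [preimage_ncard, preimage_ncard, h0, h1, prod_two]
  norm_num

theorem dist_support {n : Fin 2 → ℕ} (hn : ∀ i, 0 < n i) (Γ : Box n → ℕ) :
    (Function.support (distOf Γ)).Finite := by
  have _ : ∀ i, NeZero (n i) := fun i => ⟨(hn i).ne'⟩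
  refine (Set.finite_range Γ).subset ?_
  intro A hA
  by_contra hc
  apply hA
  have : Γ ⁻¹' {A} = ∅ := by
    ext p
    simp only [Set.mem_preimage, Set.mem_singleton_iff, Set.mem_empty_iff_false, iff_false]
    intro h
    exact hc ⟨p, h⟩
  rw [distOf, this]
  simp

theorem tv_ge (h₁ h₂ : ℕ → ℝ) (f1 : (Function.support h₁).Finite)
    (f2 : (Function.support h₂).Finite) :
    |h₁ 0 - h₂ 0| + |h₁ 1 - h₂ 1| ≤ 2 * tv h₁ h₂ := by
  classical
  set S : Finset ℕ := f1.toFinset ∪ f2.toFinset ∪ {0, 1} with hS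
  have h1 : Function.support (fun A => |h₁ A - h₂ A|) ⊆ (S : Set ℕ) := by
    intro A hA
    by_contra hc
    apply hA
    simp only [hS, Finset.coe_union, Set.Finite.coe_toFinset, Set.mem_union, not_or,
      Function.mem_support, not_not] at hc
    show |h₁ A - h₂ A| = 0
    rw [hc.1.1, hc.1.2]
    simp
  have h2 : ∑ᶠ A, |h₁ A - h₂ A| = ∑ A ∈ S, |h₁ A - h₂ A| :=
    finsum_eq_sum_of_support_subset _ h1
  have h3 : ∑ A ∈ ({0, 1} : Finset ℕ), |h₁ A - h₂ A| ≤ ∑ A ∈ S, |h₁ A - h₂ A| :=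
    Finset.sum_le_sum_of_subset_of_nonneg Finset.subset_union_right
      (fun A _ _ => abs_nonneg _)
  rw [Finset.sum_pair (by norm_num)] at h3
  rw [tv, h2]
  linarith

theorem pos31 : ∀ i, 0 < (![3, 1] : Fin 2 → ℕ) i := by decide

theorem pos48 : ∀ i, 0 < (![4, 8] : Fin 2 → ℕ) i := by decide

theorem C_eq : C 2 [0, 0, 1] = 2 := by
  apply le_antisymm
  · apply csSup_le
    · exact ⟨_, ![3, 1], pos31, grid 3 1 g1, rfl⟩
    · rintro c ⟨n, hn, Γ, rfl⟩
      exact conc_le hn Γ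
  · refine conc1.trans (le_csSup ?_ ⟨![3, 1], pos31, grid 3 1 g1, rfl⟩)
    refine ⟨2, ?_⟩
    rintro c ⟨n, hn, Γ, rfl⟩
    exact conc_le hn Γ

theorem no_dist (h : ℕ → ℝ) (hh : IsDist h) :
    ∃ δ : ℝ, 0 ≤ δ ∧ ∃ n : Fin 2 → ℕ, (∀ i, 0 < n i) ∧ ∃ Γ : Box n → ℕ,
      C 2 [0, 0, 1] * (1 - δ) ≤ conc [0, 0, 1] Γ ∧ δ < tv (distOf Γ) h := by
  by_cases hc : 0 < tv (distOf (grid 3 1 g1)) h
  · refine ⟨0, le_rfl, ![3, 1], pos31, grid 3 1 g1, ?_, hc⟩
    rw [C_eq]
    have := conc1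
    linarith
  · refine ⟨1 / 8, by norm_num, ![4, 8], pos48, grid 4 8 g2, ?_, ?_⟩
    · rw [C_eq]
      have := conc2
      linarith
    · have t1 := tv_ge _ _ (dist_support pos31 (grid 3 1 g1)) hh.2.1
      have t2 := tv_ge _ _ (dist_support pos48 (grid 4 8 g2)) hh.2.1
      rw [dist1.1, dist1.2] at t1
      rw [dist2.1, dist2.2] at t2
      have a1 : |2 / 3 - h 0| = 0 :=
        le_antisymm (by linarith [abs_nonneg (1 / 3 - h 1)]) (abs_nonneg _)
      have a2 : |1 / 3 - h 1| = 0 :=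
        le_antisymm (by linarith [abs_nonneg (2 / 3 - h 0)]) (abs_nonneg _)
      have b1 : h 0 = 2 / 3 := by linarith [abs_eq_zero.1 a1]
      have b2 : h 1 = 1 / 3 := by linarith [abs_eq_zero.1 a2]
      rw [b1, b2] at t2
      have c1 : |(1 / 2 : ℝ) - 2 / 3| = 1 / 6 := by rw [abs_of_neg] <;> norm_num
      have c2 : |(1 / 2 : ℝ) - 1 / 3| = 1 / 6 := by rw [abs_of_pos] <;> norm_num
      rw [c1, c2] at t2
      linarith

/-- The answer to Q1 is no, for the word `w = aab` (here `a = 0`, `b = 1`) and `d = 2`: one has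
`C₂(aab) = 2`, and for every letter distribution `h` there are `δ ≥ 0` and a planar grid `Γ` with
`c₂(aab, Γ) ≥ C₂(aab) (1 - δ)` and `‖h_Γ - h‖ > δ`.  In particular the statement of Q1 (for all
words with two distinct letters and all dimensions `d ≥ 1`) is false. -/
theorem result :
    C 2 [0, 0, 1] = 2 ∧
    (∀ h : ℕ → ℝ, IsDist h →
      ∃ δ : ℝ, 0 ≤ δ ∧ ∃ n : Fin 2 → ℕ, (∀ i, 0 < n i) ∧ ∃ Γ : Box n → ℕ,
        C 2 [0, 0, 1] * (1 - δ) ≤ conc [0, 0, 1] Γ ∧ δ < tv (distOf Γ) h) ∧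
    ¬ (∀ w : List ℕ, (∃ A ∈ w, ∃ B ∈ w, A ≠ B) → ∀ d : ℕ, 1 ≤ d →
      ∃ h : ℕ → ℝ, IsDist h ∧ ∀ δ : ℝ, 0 ≤ δ → ∀ n : Fin d → ℕ, (∀ i, 0 < n i) →
        ∀ Γ : Box n → ℕ, C d w * (1 - δ) ≤ conc w Γ → tv (distOf Γ) h ≤ δ) := by
  refine ⟨C_eq, no_dist, ?_⟩
  intro hall
  obtain ⟨h, hh, hs⟩ := hall [0, 0, 1] ⟨0, by simp, 1, by simp, by norm_num⟩ 2 (by norm_num)
  obtain ⟨δ, hδ, n, hn, Γ, h1, h2⟩ := no_dist h hh
  exact absurd (hs δ hδ n hn Γ h1) (not_le.2 h2)

end Pool.Agent.Results.MP_f54ac9_co.NearExtremal
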